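import Pool.Agent.Helper87.Irr.Basics2

namespace Irr87

open Irr37

/-- the largest label of `R` outside `Y` -/
theorem lab_pick {p : ℕ} {R Y : Finset ℕ} (hR : R ⊆ Finset.Icc 1 p) (hY : Y ⊆ R)
    (h : Y.card < R.card) : ∃ M ∈ R, M ∉ Y ∧ (∀ x ∈ R, x ∉ Y → x ≤ M) ∧ R.card ≤ M + Y.card := by
  have hne : (R \ Y).Nonempty := by
    rw [← Finset.card_pos, Finset.card_sdiff_of_subset hY]
    omega
  obtain ⟨M, hM, hmax⟩ := Finset.exists_max_image (R \ Y) id hne
  have hM' := Finset.mem_sdiff.1 hM
  have hle : ∀ x ∈ R, x ∉ Y → x ≤ M := fun x hx hxY => hmax x (Finset.mem_sdiff.2 ⟨hx, hxY⟩)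
  refine ⟨M, hM'.1, hM'.2, hle, ?_⟩
  have h1 : R \ Y ⊆ Finset.Icc 1 M := by
    intro x hx
    have := Finset.mem_sdiff.1 hx
    exact Finset.mem_Icc.2 ⟨(Finset.mem_Icc.1 (hR this.1)).1, hle x this.1 this.2⟩
  have h2 := Finset.card_le_card h1
  rw [Finset.card_sdiff_of_subset hY, Nat.card_Icc] at h2
  omega

/-- intact pair -/
theorem lab_pair {p s : ℕ} {R : Finset ℕ} (hR : R ⊆ Finset.Icc 1 p) (h1 : p + 1 ≤ s + R.card)
    (h2 : 2 * s + 2 ≤ p) : ∃ i ∈ R, ∃ j ∈ R, 1 ≤ i ∧ i < j ∧ i + j = p := by
  by_contra hc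
  have hc' : ∀ i, 1 ≤ i → i ≤ (p - 1) / 2 → i ∈ R → p - i ∉ R := by
    intro i hi hi' hiR hjR
    exact hc ⟨i, hiR, p - i, hjR, hi, by omega, by omega⟩
  have h3 : (Finset.Icc 1 ((p - 1) / 2)).card ≤ (Finset.Icc 1 p \ R).card := by
    classical
    refine Finset.card_le_card_of_injOn (fun i => if i ∈ R then p - i else i) ?_ ?_
    · intro i hi
      have hi := Finset.mem_Icc.1 (Finset.mem_coe.1 hi)
      by_cases hiR : i ∈ R
      · simp only [if_pos hiR]
        exact Finset.mem_coe.2 (Finset.mem_sdiff.2 ⟨Finset.mem_Icc.2 ⟨by omega, by omega⟩,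
          hc' i hi.1 hi.2 hiR⟩)
      · simp only [if_neg hiR]
        exact Finset.mem_coe.2 (Finset.mem_sdiff.2 ⟨Finset.mem_Icc.2 ⟨by omega, by omega⟩, hiR⟩)
    · intro i hi i' hi' e
      have hi := Finset.mem_Icc.1 (Finset.mem_coe.1 hi)
      have hi' := Finset.mem_Icc.1 (Finset.mem_coe.1 hi')
      simp only at e
      split_ifs at e <;> omega
  rw [Finset.card_sdiff_of_subset hR, Nat.card_Icc, Nat.card_Icc] at h3
  have hcR : R.card ≤ p := by
    have := Finset.card_le_card hR
    rwa [Nat.card_Icc, Nat.add_sub_cancel] at this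
  omega

theorem lab_card3 {a b c : ℕ} (h1 : a ≠ b) (h2 : a ≠ c) (h3 : b ≠ c) :
    ({a, b, c} : Finset ℕ).card = 3 := Finset.card_eq_three.2 ⟨a, b, c, h1, h2, h3, rfl⟩

theorem lab_sum3 {a b c : ℕ} (h1 : a ≠ b) (h2 : a ≠ c) (h3 : b ≠ c) :
    ({a, b, c} : Finset ℕ).sum id = a + b + c := by
  rw [Finset.sum_insert (by simp [h1, h2]), Finset.sum_pair h3]
  simp only [id]
  omega

theorem lab_sum2 {a b : ℕ} (h1 : a ≠ b) : ({a, b} : Finset ℕ).sum id = a + b := by
  rw [Finset.sum_pair h1]
  rfl

/-- the four largest labels -/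
theorem lab_top4 {p : ℕ} {R : Finset ℕ} (hR : R ⊆ Finset.Icc 1 p) (h : 4 ≤ R.card) :
    ∃ M1 ∈ R, ∃ M2 ∈ R, ∃ M3 ∈ R, ∃ M4 ∈ R, M2 < M1 ∧ M3 < M2 ∧ M4 < M3 ∧
      R.card ≤ M1 ∧ R.card ≤ M2 + 1 ∧ R.card ≤ M3 + 2 ∧ R.card ≤ M4 + 3 ∧
      (∀ x ∈ R, x ≠ M1 → x ≠ M2 → x ≠ M3 → x ≠ M4 → x < M4) := by
  obtain ⟨M1, m1, _, l1, c1⟩ := lab_pick hR (Finset.empty_subset R)
      (by rw [Finset.card_empty]; omega)
  obtain ⟨M2, m2, n2, l2, c2⟩ := lab_pick hR (Y := {M1}) (by simpa using m1) (by simp; omega)
  have e2 : M2 ≠ M1 := by simpa using n2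
  have g2 : M2 ≤ M1 := l1 M2 m2 (Finset.notMem_empty _)
  obtain ⟨M3, m3, n3, l3, c3⟩ := lab_pick hR (Y := {M1, M2})
    (by
      intro x hx
      simp only [Finset.mem_insert, Finset.mem_singleton] at hx
      rcases hx with rfl | rfl <;> assumption)
    (by rw [Finset.card_pair e2.symm]; omega)
  rw [Finset.card_pair e2.symm] at c3
  simp only [Finset.mem_insert, Finset.mem_singleton, not_or] at n3
  have g3 : M3 ≤ M2 := l2 M3 m3 (by simp; omega)
  obtain ⟨M4, m4, n4, l4, c4⟩ := lab_pick hR (Y := {M1, M2, M3})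
    (by
      intro x hx
      simp only [Finset.mem_insert, Finset.mem_singleton] at hx
      rcases hx with rfl | rfl | rfl <;> assumption)
    (by rw [lab_card3 e2.symm (by omega) (by omega)]; omega)
  rw [lab_card3 e2.symm (by omega) (by omega)] at c4
  simp only [Finset.mem_insert, Finset.mem_singleton, not_or] at n4
  have g4 : M4 ≤ M3 := l3 M4 m4 (by simp; omega)
  simp only [Finset.card_empty, Finset.card_singleton] at c1 c2
  refine ⟨M1, m1, M2, m2, M3, m3, M4, m4, by omega, by omega, by omega, by omega, by omega,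
    by omega, by omega, ?_⟩
  intro x hx h1 h2 h3 h4
  have := l4 x hx (by simp [h1, h2, h3])
  omega

/-- FF: the second pair -/
theorem lab_second {p s : ℕ} {R' : Finset ℕ} (hR : R' ⊆ Finset.Icc 1 p)
    (h1 : p ≤ s + R'.card + 1) (h2 : 2 * s + 2 ≤ p) (hs : 1 ≤ s) (h3 : 2 ≤ R'.card)
    (h5 : s + 5 ≤ p) : ∃ a ∈ R', ∃ b ∈ R', a < b ∧ p ≤ a + b + s ∧ a + b ≤ p + s := by
  have hne : R'.Nonempty := by
    rw [← Finset.card_pos]; omega
  obtain ⟨m, hm, hmin⟩ := Finset.exists_min_image R' id hne
  have hmin' : ∀ x ∈ R', m ≤ x := hmin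
  have hm1 := Finset.mem_Icc.1 (hR hm)
  have hsub : R' ⊆ Finset.Icc m p := fun x hx =>
    Finset.mem_Icc.2 ⟨hmin' x hx, (Finset.mem_Icc.1 (hR hx)).2⟩
  -- the counting tool: some label of `R'` in `[lo, hi]`
  have key : ∀ lo hi : ℕ, m < lo → hi ≤ p → p + 1 < (hi + 1 - lo) + R'.card + m →
      ∃ b ∈ R', lo ≤ b ∧ b ≤ hi := by
    intro lo hi hlo hhi hc
    by_contra hno
    have hd : Disjoint (Finset.Icc lo hi) R' := by
      rw [Finset.disjoint_left]
      intro x hx hx'
      have := Finset.mem_Icc.1 hx
      exact hno ⟨x, hx', this.1, this.2⟩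
    have hu : Finset.Icc lo hi ∪ R' ⊆ Finset.Icc m p := by
      refine Finset.union_subset ?_ hsub
      intro x hx
      have := Finset.mem_Icc.1 hx
      exact Finset.mem_Icc.2 ⟨by omega, by omega⟩
    have h6 := Finset.card_le_card hu
    rw [Finset.card_union_of_disjoint hd, Nat.card_Icc, Nat.card_Icc] at h6
    omega
  have hcm := Finset.card_le_card hsub
  rw [Nat.card_Icc] at hcm
  by_cases hms : m ≤ s
  · obtain ⟨b, hb, hb1, hb2⟩ : ∃ b ∈ R', max (m + 1) (p - s - m) ≤ b ∧ b ≤ p := by
      by_cases hc : m + 1 ≤ p - s - m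
      · rw [max_eq_right hc]
        exact key _ _ (by omega) (le_refl _) (by omega)
      · rw [max_eq_left (by omega)]
        refine key _ _ (by omega) (le_refl _) (by omega)
    exact ⟨m, hm, b, hb, by omega, by omega, by omega⟩
  · obtain ⟨b, hb, hb1, hb2⟩ : ∃ b ∈ R', max (m + 1) (p - s - m) ≤ b ∧ b ≤ p + s - m := by
      refine key _ _ (by omega) (by omega) (by omega)
    exact ⟨m, hm, b, hb, by omega, by omega, by omega⟩

theorem labMain : LabMain := by
  intro p s R hR h1 h2
  have hcR : R.card ≤ p := by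
    have := Finset.card_le_card hR
    rwa [Nat.card_Icc, Nat.add_sub_cancel] at this
  have hs : 1 ≤ s := by omega
  obtain ⟨i, hi, j, hj, i1, ij, ijp⟩ := lab_pair hR h1 h2
  have hX : ({i, j} : Finset ℕ) ⊆ R := by
    intro x hx
    simp only [Finset.mem_insert, Finset.mem_singleton] at hx
    rcases hx with rfl | rfl <;> assumption
  have hXc : ({i, j} : Finset ℕ).card = 2 := Finset.card_pair (by omega)
  have hXs : ({i, j} : Finset ℕ).sum id = p := by rw [lab_sum2 (by omega)]; omega
  constructor
  · -- T
    intro h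
    obtain ⟨M, m1, _, _, c1⟩ := lab_pick hR (Finset.empty_subset R)
      (by rw [Finset.card_empty]; omega)
    simp only [Finset.card_empty] at c1
    exact ⟨M, m1, by omega⟩
  · -- F
    intro _
    exact ⟨{i, j}, hX, hXc, hXs⟩
  · -- TT
    intro h
    obtain ⟨M1, m1, _, l1, c1⟩ := lab_pick hR (Finset.empty_subset R)
      (by rw [Finset.card_empty]; omega)
    obtain ⟨M2, m2, n2, l2, c2⟩ := lab_pick hR (Y := {M1}) (by simpa using m1) (by simp; omega)
    simp only [Finset.card_empty, Finset.card_singleton] at c1 c2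
    have e2 : M2 ≠ M1 := by simpa using n2
    exact ⟨M1, m1, M2, m2, e2.symm, by omega, by omega⟩
  · -- FT
    intro h
    obtain ⟨M, m1, n1, l1, c1⟩ := lab_pick hR hX (by omega)
    rw [hXc] at c1
    refine ⟨{i, j}, hX, hXc, hXs, M, m1, n1, ?_⟩
    simp only [Finset.mem_insert, Finset.mem_singleton, not_or] at n1
    by_cases hiM : i < M
    · have h3 : R \ {j} ⊆ Finset.Icc 1 M := by
        intro x hx
        have hx' := Finset.mem_sdiff.1 hx
        simp only [Finset.mem_singleton] at hx'
        refine Finset.mem_Icc.2 ⟨(Finset.mem_Icc.1 (hR hx'.1)).1, ?_⟩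
        by_cases hxi : x = i
        · omega
        · exact l1 x hx'.1 (by simp [hxi, hx'.2])
      have h4 := Finset.card_le_card h3
      rw [Finset.card_sdiff_of_subset (by simpa using hj), Nat.card_Icc,
        Finset.card_singleton] at h4
      omega
    · omega
  · -- FF
    intro h h5
    have hR' : R \ {i, j} ⊆ Finset.Icc 1 p := fun x hx => hR (Finset.mem_sdiff.1 hx).1
    have hc : (R \ {i, j}).card = R.card - 2 := by
      rw [Finset.card_sdiff_of_subset hX, hXc]
    obtain ⟨a, ha, b, hb, hab, h6, h7⟩ := lab_second hR' (s := s) (by omega) h2 hs (by omega) h5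
    have ha' := Finset.mem_sdiff.1 ha
    have hb' := Finset.mem_sdiff.1 hb
    refine ⟨{i, j}, hX, {a, b}, ?_, ?_, hXc, hXs, Finset.card_pair (by omega), ?_, ?_⟩
    · intro x hx
      simp only [Finset.mem_insert, Finset.mem_singleton] at hx
      rcases hx with rfl | rfl
      · exact ha'.1
      · exact hb'.1
    · rw [Finset.disjoint_right]
      intro x hx
      rw [Finset.mem_insert, Finset.mem_singleton] at hx
      rcases hx with rfl | rfl
      · exact ha'.2
      · exact hb'.2
    · rw [lab_sum2 (by omega)]; omega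
    · rw [lab_sum2 (by omega)]; omega
  · -- O
    intro h
    obtain ⟨M1, m1, _, l1, c1⟩ := lab_pick hR (Finset.empty_subset R)
      (by rw [Finset.card_empty]; omega)
    obtain ⟨M2, m2, n2, l2, c2⟩ := lab_pick hR (Y := {M1}) (by simpa using m1) (by simp; omega)
    have e2 : M2 ≠ M1 := by simpa using n2
    obtain ⟨M3, m3, n3, l3, c3⟩ := lab_pick hR (Y := {M1, M2})
      (by
        intro x hx
        simp only [Finset.mem_insert, Finset.mem_singleton] at hx
        rcases hx with rfl | rfl <;> assumption)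
      (by rw [Finset.card_pair e2.symm]; omega)
    rw [Finset.card_pair e2.symm] at c3
    simp only [Finset.mem_insert, Finset.mem_singleton, not_or] at n3
    simp only [Finset.card_empty, Finset.card_singleton] at c1 c2
    refine ⟨{M1, M2, M3}, ?_, lab_card3 (by omega) (by omega) (by omega), ?_⟩
    · intro x hx
      simp only [Finset.mem_insert, Finset.mem_singleton] at hx
      rcases hx with rfl | rfl | rfl <;> assumption
    · rw [lab_sum3 (by omega) (by omega) (by omega)]
      omega
  · -- TO
    intro h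
    obtain ⟨M1, m1, M2, m2, M3, m3, M4, m4, g2, g3, g4, c1, c2, c3, c4, _⟩ := lab_top4 hR h
    refine ⟨M1, m1, by omega, {M2, M3, M4}, ?_, ?_, lab_card3 (by omega) (by omega) (by omega), ?_⟩
    · intro x hx
      simp only [Finset.mem_insert, Finset.mem_singleton] at hx
      rcases hx with rfl | rfl | rfl <;> assumption
    · simp only [Finset.mem_insert, Finset.mem_singleton]
      omega
    · rw [lab_sum3 (by omega) (by omega) (by omega)]
      omega
  · -- FO
    intro h
    obtain ⟨M1, m1, M2, m2, M3, m3, M4, m4, g2, g3, g4, c1, c2, c3, c4, htop⟩ :=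
      lab_top4 hR (by omega)
    by_cases hi4 : i < M4
    · by_cases hj4 : j < M4
      · refine ⟨{i, j}, hX, {M1, M2, M3}, ?_, ?_, hXc, hXs,
          lab_card3 (by omega) (by omega) (by omega), ?_⟩
        · intro x hx
          simp only [Finset.mem_insert, Finset.mem_singleton] at hx
          rcases hx with rfl | rfl | rfl <;> assumption
        · rw [Finset.disjoint_left]
          intro x hx
          simp only [Finset.mem_insert, Finset.mem_singleton] at hx ⊢
          omega
        · rw [lab_sum3 (by omega) (by omega) (by omega)]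
          omega
      · have hj' : j = M1 ∨ j = M2 ∨ j = M3 ∨ j = M4 := by
          by_contra hc
          simp only [not_or] at hc
          exact hj4 (htop j hj hc.1 hc.2.1 hc.2.2.1 hc.2.2.2)
        obtain ⟨a, ha, b, hb, c, hc, ab, bc, ci, aj, bj, cj, hsum⟩ : ∃ a ∈ R, ∃ b ∈ R, ∃ c ∈ R,
            b < a ∧ c < b ∧ i < c ∧ a ≠ j ∧ b ≠ j ∧ c ≠ j ∧ M2 + M3 + M4 ≤ a + b + c := by
          rcases hj' with rfl | rfl | rfl | rfl
          · exact ⟨M2, m2, M3, m3, M4, m4, by omega, by omega, by omega, by omega, by omega,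
              by omega, by omega⟩
          · exact ⟨M1, m1, M3, m3, M4, m4, by omega, by omega, by omega, by omega, by omega,
              by omega, by omega⟩
          · exact ⟨M1, m1, M2, m2, M4, m4, by omega, by omega, by omega, by omega, by omega,
              by omega, by omega⟩
          · exact ⟨M1, m1, M2, m2, M3, m3, by omega, by omega, by omega, by omega, by omega,
              by omega, by omega⟩
        refine ⟨{i, j}, hX, {a, b, c}, ?_, ?_, hXc, hXs,
          lab_card3 (by omega) (by omega) (by omega), ?_⟩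
        · intro x hx
          simp only [Finset.mem_insert, Finset.mem_singleton] at hx
          rcases hx with rfl | rfl | rfl <;> assumption
        · rw [Finset.disjoint_left]
          intro x hx
          simp only [Finset.mem_insert, Finset.mem_singleton] at hx ⊢
          omega
        · rw [lab_sum3 (by omega) (by omega) (by omega)]
          omega
    · -- both labels are among the four largest
      have hi' : i = M1 ∨ i = M2 ∨ i = M3 ∨ i = M4 := by
        by_contra hc
        simp only [not_or] at hc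
        exact hi4 (htop i hi hc.1 hc.2.1 hc.2.2.1 hc.2.2.2)
      have hj' : j = M1 ∨ j = M2 ∨ j = M3 ∨ j = M4 := by
        by_contra hc
        simp only [not_or] at hc
        have := htop j hj hc.1 hc.2.1 hc.2.2.1 hc.2.2.2
        omega
      have e4 : ({M1, M2, M3, M4} : Finset ℕ).card = 4 := by
        rw [Finset.card_insert_of_notMem (by simp; omega),
          lab_card3 (by omega) (by omega) (by omega)]
      obtain ⟨M5, m5, n5, l5, c5⟩ := lab_pick hR (Y := {M1, M2, M3, M4})
        (by
          intro x hx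
          simp only [Finset.mem_insert, Finset.mem_singleton] at hx
          rcases hx with rfl | rfl | rfl | rfl <;> assumption) (by omega)
      rw [e4] at c5
      simp only [Finset.mem_insert, Finset.mem_singleton, not_or] at n5
      have g5 : M5 < M4 := htop M5 m5 n5.1 n5.2.1 n5.2.2.1 n5.2.2.2
      obtain ⟨a, ha, b, hb, ab, b5, ai, aj, bi, bj, hsum⟩ : ∃ a ∈ R, ∃ b ∈ R, b < a ∧ M5 < b ∧
          a ≠ i ∧ a ≠ j ∧ b ≠ i ∧ b ≠ j ∧ M1 + M2 + M3 + M4 = a + b + i + j := by
        rcases hi' with rfl | rfl | rfl | rfl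
        · omega
        · have : j = M1 := by omega
          exact ⟨M3, m3, M4, m4, by omega, by omega, by omega, by omega, by omega, by omega,
            by omega⟩
        · have : j = M1 ∨ j = M2 := by omega
          rcases this with h | h
          · exact ⟨M2, m2, M4, m4, by omega, by omega, by omega, by omega, by omega, by omega,
              by omega⟩
          · exact ⟨M1, m1, M4, m4, by omega, by omega, by omega, by omega, by omega, by omega,
              by omega⟩
        · have : j = M1 ∨ j = M2 ∨ j = M3 := by omega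
          rcases this with h | h | h
          · exact ⟨M2, m2, M3, m3, by omega, by omega, by omega, by omega, by omega, by omega,
              by omega⟩
          · exact ⟨M1, m1, M3, m3, by omega, by omega, by omega, by omega, by omega, by omega,
              by omega⟩
          · exact ⟨M1, m1, M2, m2, by omega, by omega, by omega, by omega, by omega, by omega,
              by omega⟩
      refine ⟨{i, j}, hX, {a, b, M5}, ?_, ?_, hXc, hXs,
        lab_card3 (by omega) (by omega) (by omega), ?_⟩
      · intro x hx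
        simp only [Finset.mem_insert, Finset.mem_singleton] at hx
        rcases hx with rfl | rfl | rfl <;> assumption
      · rw [Finset.disjoint_left]
        intro x hx
        simp only [Finset.mem_insert, Finset.mem_singleton] at hx ⊢
        omega
      · rw [lab_sum3 (by omega) (by omega) (by omega)]
        omega
  · -- OO
    intro h
    obtain ⟨M1, m1, M2, m2, M3, m3, M4, m4, g2, g3, g4, c1, c2, c3, c4, htop⟩ :=
      lab_top4 hR (by omega)
    have e4 : ({M1, M2, M3, M4} : Finset ℕ).card = 4 := by
      rw [Finset.card_insert_of_notMem (by simp; omega),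
        lab_card3 (by omega) (by omega) (by omega)]
    obtain ⟨M5, m5, n5, l5, c5⟩ := lab_pick hR (Y := {M1, M2, M3, M4})
      (by
        intro x hx
        simp only [Finset.mem_insert, Finset.mem_singleton] at hx
        rcases hx with rfl | rfl | rfl | rfl <;> assumption) (by omega)
    rw [e4] at c5
    simp only [Finset.mem_insert, Finset.mem_singleton, not_or] at n5
    have g5 : M5 < M4 := htop M5 m5 n5.1 n5.2.1 n5.2.2.1 n5.2.2.2
    have e5 : ({M1, M2, M3, M4, M5} : Finset ℕ).card = 5 := by
      rw [Finset.card_insert_of_notMem (by simp; omega), Finset.card_insert_of_notMem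
        (by simp; omega), lab_card3 (by omega) (by omega) (by omega)]
    obtain ⟨M6, m6, n6, l6, c6⟩ := lab_pick hR (Y := {M1, M2, M3, M4, M5})
      (by
        intro x hx
        simp only [Finset.mem_insert, Finset.mem_singleton] at hx
        rcases hx with rfl | rfl | rfl | rfl | rfl <;> assumption) (by omega)
    rw [e5] at c6
    simp only [Finset.mem_insert, Finset.mem_singleton, not_or] at n6
    have g6 : M6 ≤ M5 := l5 M6 m6 (by simp; omega)
    refine ⟨{M1, M4, M5}, ?_, {M2, M3, M6}, ?_, ?_, lab_card3 (by omega) (by omega) (by omega), ?_,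
      lab_card3 (by omega) (by omega) (by omega), ?_⟩
    · intro x hx
      simp only [Finset.mem_insert, Finset.mem_singleton] at hx
      rcases hx with rfl | rfl | rfl <;> assumption
    · intro x hx
      simp only [Finset.mem_insert, Finset.mem_singleton] at hx
      rcases hx with rfl | rfl | rfl <;> assumption
    · rw [Finset.disjoint_left]
      intro x hx
      simp only [Finset.mem_insert, Finset.mem_singleton] at hx ⊢
      omega
    · rw [lab_sum3 (by omega) (by omega) (by omega)]
      omega
    · rw [lab_sum3 (by omega) (by omega) (by omega)]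
      omega

end Irr87
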