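import Pool.Agent.Helper87.Irr.Basics2

namespace Irr87

open Irr37

/-- extending a path by the `n` smallest free deficits -/
theorem place_chain (p : ℕ) : ∀ (n : ℕ) (A : Finset ℕ) (a m : ℕ), (∀ D < m, D ∈ A) → a ≤ m →
    A.card + n ≤ p →
    ∃ (Ds : List ℕ) (b m' : ℕ), Ds.length = n ∧ Chain p a Ds b ∧ Ds.Nodup ∧
      (∀ D ∈ Ds, D ∉ A ∧ D < A.card + n) ∧ m' ≤ A.card + n ∧ m ≤ m' ∧
      (∀ D < m', D ∈ A ∨ D ∈ Ds) ∧ (n = 0 → b = a ∧ m' = m) ∧
      (n ≠ 0 → n % 2 = 0 → b + m + 1 ≤ a + m') ∧ (n % 2 = 1 → b + a + 1 ≤ m') := by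
  intro n
  induction n with
  | zero =>
    intro A a m hm ha hp
    refine ⟨[], a, m, rfl, rfl, List.nodup_nil, by simp, ?_, le_refl _, fun D hD => Or.inl (hm D hD),
      fun _ => ⟨rfl, rfl⟩, fun h => absurd rfl h, by simp⟩
    have h1 : Finset.range m ⊆ A := fun D hD => hm D (Finset.mem_range.1 hD)
    have h2 := Finset.card_le_card h1
    rw [Finset.card_range] at h2
    omega
  | succ n ih =>
    intro A a m hm ha hp
    have hex : ∃ g, g ∉ A := Infinite.exists_notMem_finset A
    have hex' := hex
    classical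
    obtain ⟨g, hg, hmin⟩ : ∃ g, g ∉ A ∧ ∀ D < g, D ∈ A :=
      ⟨Nat.find hex, Nat.find_spec hex, fun D hD => not_not.1 (Nat.find_min hex hD)⟩
    have hgA : g ≤ A.card := by
      have h1 : Finset.range g ⊆ A := fun D hD => hmin D (Finset.mem_range.1 hD)
      have h2 := Finset.card_le_card h1
      rwa [Finset.card_range] at h2
    have hmg : m ≤ g := by
      by_contra hc
      exact hg (hm g (by omega))
    have hcard : (insert g A).card = A.card + 1 := Finset.card_insert_of_notMem hg
    obtain ⟨Ds, b, m', h1, h2, h3, h4, h5, h6, h7, h8, h9, h10⟩ := ih (insert g A) (g - a) (g + 1)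
      (by
        intro D hD
        rcases Nat.lt_succ_iff_lt_or_eq.1 hD with h | h
        · exact Finset.mem_insert_of_mem (hmin D h)
        · rw [h]; exact Finset.mem_insert_self _ _) (by omega) (by omega)
    rw [hcard] at h4 h5
    refine ⟨g :: Ds, b, m', by simp [h1], ⟨by omega, by omega, h2⟩, ?_, ?_, by omega, by omega, ?_,
      by simp, ?_, ?_⟩
    · refine List.nodup_cons.2 ⟨fun h => ?_, h3⟩
      exact (h4 g h).1 (Finset.mem_insert_self _ _)
    · intro D hD
      rcases List.mem_cons.1 hD with rfl | hD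
      · exact ⟨hg, by omega⟩
      · refine ⟨fun h => (h4 D hD).1 (Finset.mem_insert_of_mem h), ?_⟩
        have := (h4 D hD).2
        omega
    · intro D hD
      rcases h7 D hD with h | h
      · rcases Finset.mem_insert.1 h with rfl | h
        · exact Or.inr List.mem_cons_self
        · exact Or.inl h
      · exact Or.inr (List.mem_cons_of_mem _ h)
    · intro _ hn
      have := h10 (by omega)
      omega
    · intro hn
      by_cases hn0 : n = 0
      · have := h8 hn0
        omega
      · have := h9 hn0 (by omega)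
        omega

theorem opn_cons (p n : ℕ) (ns : List ℕ) : opn p (n :: ns) = (n, p) :: opn p ns := rfl

theorem oddc_cons (n : ℕ) (ns : List ℕ) : oddc (n :: ns) = n % 2 + oddc ns := by
  unfold oddc
  rw [List.filter_cons]
  by_cases h : n % 2 = 1
  · simp [h]; omega
  · have h' : n % 2 = 0 := by omega
    simp [h']

/-- placing runs one after the other -/
theorem place_runs (p : ℕ) : ∀ (ns : List ℕ) (A : Finset ℕ) (m : ℕ), (∀ n ∈ ns, 1 ≤ n) →
    A.card + ns.sum ≤ p → (∀ D < m, D ∈ A) →
    ∃ (Dss : List (List ℕ)) (hs : List ℕ) (μ : ℕ), Runs p (opn p ns) Dss hs ∧ Dss.flatten.Nodup ∧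
      (∀ D ∈ Dss.flatten, D ∉ A ∧ D < A.card + ns.sum) ∧ (∀ h ∈ hs, h < A.card + ns.sum) ∧
      μ ≤ A.card + ns.sum ∧ m ≤ μ ∧ (∀ D < μ, D ∈ A ∨ D ∈ Dss.flatten) ∧
      hs.sum + m ≤ μ + oddc ns * p := by
  intro ns
  induction ns with
  | nil =>
    intro A m _ hp hm
    refine ⟨[], [], m, trivial, by simp, by simp, by simp, ?_, le_refl _,
      fun D hD => Or.inl (hm D hD), by simp⟩
    have h1 : Finset.range m ⊆ A := fun D hD => hm D (Finset.mem_range.1 hD)
    have h2 := Finset.card_le_card h1
    rw [Finset.card_range] at h2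
    omega
  | cons n ns ih =>
    intro A m hn hp hm
    have hn1 : 1 ≤ n := hn n List.mem_cons_self
    rw [List.sum_cons] at hp
    obtain ⟨Ds, b, m', h1, h2, h3, h4, h5, h6, h7, _, h9, h10⟩ :=
      place_chain p n A 0 m hm (Nat.zero_le _) (by omega)
    have hb : b < m' := by
      rcases Nat.mod_two_eq_zero_or_one n with h | h
      · have := h9 (by omega) h; omega
      · have := h10 h; omega
    have hdisj : Disjoint A Ds.toFinset := by
      rw [Finset.disjoint_left]
      intro D hD hD'
      exact (h4 D (List.mem_toFinset.1 hD')).1 hD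
    have hcard : (A ∪ Ds.toFinset).card = A.card + n := by
      rw [Finset.card_union_of_disjoint hdisj, List.toFinset_card_of_nodup h3, h1]
    obtain ⟨Dss, hs, μ, k1, k2, k3, k4, k5, k6, k7, k8⟩ := ih (A ∪ Ds.toFinset) m'
      (fun n hn' => hn n (List.mem_cons_of_mem _ hn')) (by omega) (by
        intro D hD
        rcases h7 D hD with h | h
        · exact Finset.mem_union_left _ h
        · exact Finset.mem_union_right _ (List.mem_toFinset.2 h))
    rw [hcard] at k3 k4 k5
    have hne : Ds ≠ [] := by
      rintro rfl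
      simp at h1
      omega
    refine ⟨Ds :: Dss, b :: hs, μ, ⟨h1, ChS_of_chain hne h2, by omega, k1⟩, ?_, ?_, ?_, ?_,
      by omega, ?_, ?_⟩
    · rw [List.flatten_cons, List.nodup_append']
      refine ⟨h3, k2, ?_⟩
      rw [List.disjoint_left]
      intro D hD hD'
      exact (k3 D hD').1 (Finset.mem_union_right _ (List.mem_toFinset.2 hD))
    · intro D hD
      rw [List.sum_cons]
      rw [List.flatten_cons] at hD
      rcases List.mem_append.1 hD with hD | hD
      · have := h4 D hD
        exact ⟨this.1, by omega⟩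
      · have := k3 D hD
        refine ⟨fun h => this.1 (Finset.mem_union_left _ h), by omega⟩
    · intro h hh
      rw [List.sum_cons]
      rcases List.mem_cons.1 hh with rfl | hh
      · omega
      · have := k4 h hh
        omega
    · rw [List.sum_cons]; omega
    · intro D hD
      rw [List.flatten_cons]
      rcases k7 D hD with h | h
      · rcases Finset.mem_union.1 h with h | h
        · exact Or.inl h
        · exact Or.inr (List.mem_append_left _ (List.mem_toFinset.1 h))
      · exact Or.inr (List.mem_append_right _ h)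
    · rw [List.sum_cons, oddc_cons]
      rcases Nat.mod_two_eq_zero_or_one n with h | h
      · have := h9 (by omega) h
        rw [h]
        have e : (0 + oddc ns) * p = oddc ns * p := by rw [Nat.zero_add]
        omega
      · rw [h]
        have e : (1 + oddc ns) * p = p + oddc ns * p := by ring
        omega

/-- inserting a run -/
theorem Runs_insert {p n₀ S₀ : ℕ} {Ds₀ : List ℕ} {h₀ : ℕ} (hl : Ds₀.length = n₀)
    (hc : ChS p S₀ Ds₀ h₀) (hh : h₀ < p) : ∀ (l₁ l₂ : List (ℕ × ℕ)) (Dss : List (List ℕ))
    (hs : List ℕ), Runs p (l₁ ++ l₂) Dss hs →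
    ∃ Dss' hs', Runs p (l₁ ++ (n₀, S₀) :: l₂) Dss' hs' ∧ Dss'.Perm (Ds₀ :: Dss) ∧
      hs'.Perm (h₀ :: hs) := by
  intro l₁
  induction l₁ with
  | nil =>
    intro l₂ Dss hs hr
    exact ⟨Ds₀ :: Dss, h₀ :: hs, ⟨hl, hc, hh, hr⟩, List.Perm.refl _, List.Perm.refl _⟩
  | cons e l₁ ih =>
    intro l₂ Dss hs hr
    obtain ⟨n, S⟩ := e
    cases Dss with
    | nil =>
      cases hs with
      | nil => simp [Runs] at hr
      | cons _ _ => simp [Runs] at hr
    | cons Ds Dss =>
      cases hs with
      | nil => simp [Runs] at hr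
      | cons h hs =>
        obtain ⟨h1, h2, h3, h4⟩ := hr
        obtain ⟨Dss', hs', k1, k2, k3⟩ := ih l₂ Dss hs h4
        refine ⟨Ds :: Dss', h :: hs', ⟨h1, h2, h3, k1⟩, ?_, ?_⟩
        · exact (k2.cons Ds).trans (List.Perm.swap _ _ _)
        · exact (k3.cons h).trans (List.Perm.swap _ _ _)

theorem oddc_append (l₁ l₂ : List ℕ) : oddc (l₁ ++ l₂) = oddc l₁ + oddc l₂ := by
  unfold oddc
  rw [List.filter_append, List.length_append]

theorem place : Place := by
  intro p V ns hn hp
  classical
  -- the used deficits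
  obtain ⟨A, hAc, hA1, hA2⟩ : ∃ A : Finset ℕ, A.card ≤ V.card ∧ (∀ D ∈ A, 2 * p - D ∈ V) ∧
      (∀ D < p, 2 * p - D ∈ V → D ∈ A) := by
    refine ⟨(Finset.range p).filter (fun D => 2 * p - D ∈ V), ?_, ?_, ?_⟩
    · refine Finset.card_le_card_of_injOn (fun D => 2 * p - D) ?_ ?_
      · intro D hD
        have := Finset.mem_filter.1 hD
        exact this.2
      · intro D hD D' hD' e
        have h1 := Finset.mem_range.1 (Finset.mem_filter.1 hD).1
        have h2 := Finset.mem_range.1 (Finset.mem_filter.1 hD').1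
        simp only at e
        omega
    · intro D hD
      exact (Finset.mem_filter.1 hD).2
    · intro D hD h
      exact Finset.mem_filter.2 ⟨Finset.mem_range.2 hD, h⟩
  by_cases ho : ∃ n₀ ∈ ns, n₀ % 2 = 1
  · obtain ⟨n₀, hn₀, hodd⟩ := ho
    obtain ⟨l₁, l₂, rfl⟩ := List.append_of_mem hn₀
    have hsum : (l₁ ++ n₀ :: l₂).sum = n₀ + (l₁ ++ l₂).sum := by
      simp only [List.sum_append, List.sum_cons]; omega
    have hoc : oddc (l₁ ++ n₀ :: l₂) = 1 + oddc (l₁ ++ l₂) := by
      rw [oddc_append, oddc_cons, oddc_append, hodd]; omega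
    rw [hsum] at hp ⊢
    rw [hoc]
    have hn1 := hn n₀ hn₀
    obtain ⟨Ds, b, m', h1, h2, h3, h4, h5, h6, h7, _, _, h10⟩ :=
      place_chain p n₀ A 0 0 (by intro D hD; omega) (Nat.zero_le _) (by omega)
    have hb := h10 hodd
    have hdisj : Disjoint A Ds.toFinset := by
      rw [Finset.disjoint_left]
      intro D hD hD'
      exact (h4 D (List.mem_toFinset.1 hD')).1 hD
    have hcard : (A ∪ Ds.toFinset).card = A.card + n₀ := by
      rw [Finset.card_union_of_disjoint hdisj, List.toFinset_card_of_nodup h3, h1]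
    obtain ⟨Dss, hs, μ, k1, k2, k3, k4, k5, k6, k7, k8⟩ := place_runs p (l₁ ++ l₂)
      (A ∪ Ds.toFinset) m' (by
        intro n hn'
        refine hn n ?_
        rcases List.mem_append.1 hn' with h | h
        · exact List.mem_append_left _ h
        · exact List.mem_append_right _ (List.mem_cons_of_mem _ h)) (by omega) (by
        intro D hD
        rcases h7 D hD with h | h
        · exact Finset.mem_union_left _ h
        · exact Finset.mem_union_right _ (List.mem_toFinset.2 h))
    rw [hcard] at k3 k4 k5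
    have hne : Ds ≠ [] := by
      rintro rfl
      simp at h1
      omega
    have hr : Runs p (opn p l₁ ++ opn p l₂) Dss hs := by
      have e : opn p (l₁ ++ l₂) = opn p l₁ ++ opn p l₂ := by simp [opn]
      rwa [e] at k1
    obtain ⟨Dss', hs', q1, q2, q3⟩ := Runs_insert h1 (ChS_of_chain hne h2)
      (show b < p by omega) _ _ _ _ hr
    have e : opn p (l₁ ++ n₀ :: l₂) = opn p l₁ ++ (n₀, p) :: opn p l₂ := by simp [opn]
    have qf : Dss'.flatten.Perm (Ds ++ Dss.flatten) := by
      have := q2.flatten
      rwa [List.flatten_cons] at this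
    have hcov : ∀ D ∈ Dss'.flatten, D ∉ A ∧ D < A.card + (n₀ + (l₁ ++ l₂).sum) := by
      intro D hD
      rcases List.mem_append.1 (qf.mem_iff.1 hD) with hD | hD
      · have := h4 D hD
        exact ⟨this.1, by omega⟩
      · have := k3 D hD
        exact ⟨fun h => this.1 (Finset.mem_union_left _ h), by omega⟩
    refine ⟨Dss', hs', μ, e ▸ q1, ?_, ?_, by omega, ?_, ?_, ?_, ?_⟩
    · rw [qf.nodup_iff, List.nodup_append']
      refine ⟨h3, k2, ?_⟩
      rw [List.disjoint_left]
      intro D hD hD'
      exact (k3 D hD').1 (Finset.mem_union_right _ (List.mem_toFinset.2 hD))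
    · intro D hD hV
      have := hcov D hD
      exact this.1 (hA2 D (by omega) hV)
    · intro D hD
      rcases k7 D hD with h | h
      · rcases Finset.mem_union.1 h with h | h
        · exact Or.inl (hA1 D h)
        · exact Or.inr (qf.mem_iff.2 (List.mem_append_left _ (List.mem_toFinset.1 h)))
      · exact Or.inr (qf.mem_iff.2 (List.mem_append_right _ h))
    · rw [q3.sum_eq, List.sum_cons]
      have e1 : min 1 (1 + oddc (l₁ ++ l₂)) = 1 := by omega
      have e2 : 1 + oddc (l₁ ++ l₂) - 1 = oddc (l₁ ++ l₂) := by omega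
      rw [e1, e2]
      omega
    · intro D hD
      have := hcov D hD
      omega
    · intro h hh
      rcases List.mem_cons.1 (q3.mem_iff.1 hh) with rfl | hh
      · omega
      · have := k4 h hh
        omega
  · have hoc : oddc ns = 0 := by
      unfold oddc
      rw [List.length_eq_zero_iff, List.filter_eq_nil_iff]
      intro n hn' h
      exact ho ⟨n, hn', by simpa using h⟩
    obtain ⟨Dss, hs, μ, k1, k2, k3, k4, k5, k6, k7, k8⟩ := place_runs p ns A 0 hn (by omega)
      (by intro D hD; omega)
    rw [hoc]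
    rw [hoc] at k8
    refine ⟨Dss, hs, μ, k1, k2, ?_, by omega, ?_, by omega, ?_, ?_⟩
    · intro D hD hV
      have := k3 D hD
      exact this.1 (hA2 D (by omega) hV)
    · intro D hD
      rcases k7 D hD with h | h
      · exact Or.inl (hA1 D h)
      · exact Or.inr h
    · intro D hD
      have := k3 D hD
      omega
    · intro h hh
      have := k4 h hh
      omega

end Irr87
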